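import Pool.Agent.MP_fcd29e_an.H11.CS

/-!
Points of the curve; uniqueness from a base block.
-/

set_option autoImplicit false

open Complex Pool.Agent.MP_fcd29e_an.H11

namespace Pool.Agent.MP_fcd29e_an.H68

namespace XU

variable {r m n : ℕ} [NeZero m] {s : Option (Fin m) → ℂ} {c S : ℝ} {om : Fin m → Fin r → ℂ}
  {F : ℂ → EV (Fin r)}

theorem p1 (hn : 1 ≤ n) (hs : s ∈ XX m n) (h : s none = 0) (j : Fin m) : s (some j) ≠ 0 := by
  intro hj
  have h0 : n ≠ 0 := by omega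
  have e : ∀ i, s (some i) ^ n = s (some 0) ^ n := fun i => by
    rw [hs.2 i, h, zero_pow h0, mul_zero, sub_zero]
  refine hs.1 (funext fun o => ?_)
  cases o with
  | none => exact h
  | some i => exact pow_eq_zero_iff h0 |>.1 (by rw [e i, ← e j, hj, zero_pow h0])

theorem p2 (hn : 1 ≤ n) (hs : s ∈ XX m n) {j : Fin m} (hj : s (some j) = 0) :
    s none ≠ 0 ∧ ∀ i, i ≠ j → s (some i) ≠ 0 := by
  have h0 : n ≠ 0 := by omega
  have h1 : s none ≠ 0 := fun h => p1 hn hs h j hj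
  refine ⟨h1, fun i hij hi => hij ?_⟩
  have e1 := hs.2 i
  have e2 := hs.2 j
  rw [hi, zero_pow h0] at e1
  rw [hj, zero_pow h0] at e2
  have e3 : tp i * s none ^ n = tp j * s none ^ n := by linear_combination e1 - e2
  have e4 := mul_left_cancel₀ I_ne_zero (mul_right_cancel₀ (pow_ne_zero n h1) e3)
  exact Fin.ext (by exact_mod_cast e4)

theorem q_zero {v : V (Fin r)} (h0 : Q0 v = 0) (h1 : Qp v = 0) (h2 : Qm v = 0) : v = 0 := by
  have a0 := congrArg Prod.fst h0
  have a1 := congrArg (fun x => x.2.1) h1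
  have a2 := congrArg (fun x => x.2.2) h2
  exact Prod.ext a0 (Prod.ext a1 a2)

theorem p_zero {w : Fin r → ℂ} {v : V (Fin r)} (h0 : Pp c S w v = 0) (h1 : P0 c S w v = 0)
    (h2 : Pm c S w v = 0) : v = 0 := by
  have : P0 c S w v = v - Pp c S w v - Pm c S w v := rfl
  rw [h0, h1, h2, sub_zero, sub_zero] at this
  exact this.symm

theorem canc {a : ℂ} (ha : a ≠ 0) {v : V (Fin r)} (h : a • v = 0) : v = 0 :=
  (smul_eq_zero.1 h).resolve_left ha

theorem eA {e : Bk m → V (Fin r)} (h : RelE c S om F s e) (h1 : s none ≠ 0) (h0 : e none = 0) :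
    e (some none) = 0 := by
  obtain ⟨a1, a2, a3, -⟩ := h
  simp only [h0, map_zero, smul_zero] at a1 a2 a3
  exact q_zero (canc (pow_ne_zero _ h1) a1) a2 (canc (pow_ne_zero _ h1) a3)

theorem eB {e : Bk m → V (Fin r)} (h : RelE c S om F s e) {j : Fin m} (h1 : s (some j) ≠ 0)
    (h0 : e none = 0) : e (some (some j)) = 0 := by
  obtain ⟨a1, a2, a3⟩ := h.2.2.2 j
  simp only [h0, map_zero, smul_zero] at a1 a2 a3
  exact p_zero (canc (pow_ne_zero _ h1) a1) (canc h1 a2) a3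

omit [NeZero m] in
theorem all0 {e : Bk m → V (Fin r)} (h0 : e none = 0) (h1 : e (some none) = 0)
    (h2 : ∀ j, e (some (some j)) = 0) : e = 0 := by
  funext o
  rcases o with _ | _ | j
  · exact h0
  · exact h1
  · exact h2 j

theorem uniqE (hn : 1 ≤ n) (hs : s ∈ XX m n) (hF : ∀ j : Fin m, IsUnit (F (tp j)))
    {e : Bk m → V (Fin r)} (h : RelE c S om F s e)
    (hc : (s none ≠ 0 ∧ (∀ j, s (some j) ≠ 0) ∧ e none = 0) ∨
      (∃ j, s (some j) = 0 ∧ e (some (some j)) = 0) ∨ (s none = 0 ∧ e (some none) = 0)) :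
    e = 0 := by
  rcases hc with ⟨h1, h2, h3⟩ | ⟨j, h1, h2⟩ | ⟨h1, h2⟩
  · exact all0 h3 (eA h h1 h3) fun j => eB h (h2 j) h3
  · obtain ⟨h3, h4⟩ := p2 hn hs h1
    obtain ⟨a1, a2, a3⟩ := h.2.2.2 j
    simp only [h2, map_zero, smul_zero] at a1 a2 a3
    have h5 := p_zero (canc (pow_ne_zero _ h3) a1.symm) (canc h3 a2.symm) a3.symm
    have h6 : e none = 0 := by
      have h7 : (F (tp j) * Ring.inverse (F (tp j))) (e none) = 0 := by
        change F (tp j) (Ring.inverse (F (tp j)) (e none)) = 0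
        rw [h5, map_zero]
      rwa [Ring.mul_inverse_cancel _ (hF j)] at h7
    refine all0 h6 (eA h h3 h6) fun i => ?_
    by_cases hi : i = j
    · exact hi ▸ h2
    · exact eB h (h4 i hi) h6
  · have h3 := p1 hn hs h1
    obtain ⟨a1, a2, a3, -⟩ := id h
    simp only [h2, map_zero, smul_zero] at a1 a2 a3
    have h6 : e none = 0 :=
      q_zero (canc (pow_ne_zero _ (h3 0)) a1.symm) a2.symm (canc (pow_ne_zero _ (h3 0)) a3.symm)
    exact all0 h6 h2 fun j => eB h (h3 j) h6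

theorem uniqW (hn : 1 ≤ n) (hs : s ∈ XX m n) {w : Wi r m → ℂ} (h : RelW c S om F s 0 w) :
    w = 0 := by
  have h0 : ∀ k, w (none, k) = 0 := fun k => by
    obtain ⟨a1, a2⟩ := h.1 k
    by_cases h1 : s none = 0
    · exact (mul_eq_zero.1 a2).resolve_left (pow_ne_zero _ (p1 hn hs h1 0))
    · exact (mul_eq_zero.1 a1).resolve_left (pow_ne_zero _ h1)
  funext ⟨o, k⟩
  rcases o with _ | ⟨j, l⟩
  · exact h0 k
  · obtain ⟨a1, a2⟩ := h.2 j l k
    simp only [mnr, h0, mul_zero, sub_zero, Pi.zero_apply, map_zero, smul_zero, add_zero,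
      Prod.snd_zero] at a1 a2
    by_cases h1 : s none = 0
    · exact (mul_eq_zero.1 a1).resolve_left (p1 hn hs h1 j)
    · exact (mul_eq_zero.1 a2).resolve_left (pow_ne_zero _ h1)

theorem linE {e e' : Bk m → V (Fin r)} (a : ℂ) (h : RelE c S om F s e) (h' : RelE c S om F s e') :
    RelE c S om F s (e - a • e') := by
  obtain ⟨a1, a2, a3, a4⟩ := h
  obtain ⟨b1, b2, b3, b4⟩ := h'
  simp only [RelE, Pi.sub_apply, Pi.smul_apply, map_sub, map_smul, smul_sub, smul_comm _ a, a1, a2,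
    a3, b1, b2, b3, true_and]
  intro j
  obtain ⟨c1, c2, c3⟩ := a4 j
  obtain ⟨d1, d2, d3⟩ := b4 j
  simp only [c1, c2, c3, d1, d2, d3, true_and]

theorem linW {e e' : Bk m → V (Fin r)} {w w' : Wi r m → ℂ} (a : ℂ) (h : RelW c S om F s e w)
    (h' : RelW c S om F s e' w') : RelW c S om F s (e - a • e') (w - a • w') := by
  refine ⟨fun k => ?_, fun j l k => ?_⟩
  · obtain ⟨a1, a2⟩ := h.1 k
    obtain ⟨b1, b2⟩ := h'.1 k
    simp only [Pi.sub_apply, Pi.smul_apply, Prod.snd_sub, Prod.smul_snd, smul_eq_mul]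
    exact ⟨by linear_combination a1 - a * b1, by linear_combination a2 - a * b2⟩
  · obtain ⟨a1, a2⟩ := h.2 j l k
    obtain ⟨b1, b2⟩ := h'.2 j l k
    simp only [mnr, Pi.sub_apply, Pi.smul_apply, Pi.add_apply, Prod.snd_sub, Prod.smul_snd,
      Prod.snd_add, smul_eq_mul, map_sub, map_smul, map_add] at a1 a2 b1 b2 ⊢
    exact ⟨by linear_combination a1 - a * b1, by linear_combination a2 - a * b2⟩

theorem scE {a : ℂ} (ha : a ≠ 0) {e : Bk m → V (Fin r)} (h : RelE c S om F (a • s) e) :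
    RelE c S om F s e := by
  simpa only [RelE, Pi.smul_apply, smul_eq_mul, mul_pow, mul_smul,
    (smul_right_injective (V (Fin r)) ha).eq_iff,
    (smul_right_injective (V (Fin r)) (pow_ne_zero _ ha)).eq_iff] using h

theorem scW {a : ℂ} (ha : a ≠ 0) {e : Bk m → V (Fin r)} {w : Wi r m → ℂ}
    (h : RelW c S om F (a • s) e w) : RelW c S om F s e (a ^ (8 * m) • w) := by
  refine ⟨fun k => ?_, fun j l k => ?_⟩
  · obtain ⟨a1, a2⟩ := h.1 k
    simp only [Pi.smul_apply, smul_eq_mul, mul_pow] at a1 a2 ⊢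
    exact ⟨by linear_combination a1, by linear_combination a2⟩
  · obtain ⟨a1, a2⟩ := h.2 j l k
    simp only [mnr, Pi.smul_apply, Pi.add_apply, Prod.smul_snd, Prod.snd_add, smul_eq_mul, map_smul,
      map_add, mul_pow] at a1 a2 ⊢
    exact ⟨mul_left_cancel₀ ha (by linear_combination a ^ (8 * m) * a1),
      mul_left_cancel₀ ha (by linear_combination a2)⟩

end XU

open XU in
theorem sxu (hGR : SGR) : SXU := by
  intro r m n _ hn s hs
  refine ⟨p1 hn hs, fun j hj => p2 hn hs hj, fun h j => ?_, fun a ha => ⟨smul_ne_zero ha hs.1,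
    fun j => ?_⟩, fun c S om F _ hF => ⟨fun e h hc =>
      uniqE hn hs (fun j => ((hGR.op (Fin r)).2.2.2.2 _ (hF j)).1) h hc, fun w h => uniqW hn hs h,
      fun e e' a => linE a, fun e w e' w' a => linW a,
      fun a ha => ⟨fun e => scE ha, fun e w => scW ha⟩⟩⟩
  · rw [div_pow, div_pow, hs.2 j]
    field_simp
    ring
  · simp only [Pi.smul_apply, smul_eq_mul, mul_pow]
    rw [hs.2 j]
    ring

end Pool.Agent.MP_fcd29e_an.H68
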