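import Pool.Agent.MP_fcd29e_an.H11.CS

/-!
Calculus of second derivatives.
-/

set_option autoImplicit false

open Filter Topology Pool.Agent.MP_fcd29e_an.H11

namespace Pool.Agent.MP_fcd29e_an.H68

variable {X Y : Type} [NormedAddCommGroup X] [NormedSpace ℝ X] [NormedAddCommGroup Y]
  [NormedSpace ℝ Y]

theorem hd2 {F : X → Y} {p : X} (h : ContDiffAt ℝ 2 F p) :
    HasFDerivAt (fderiv ℝ F) (fderiv ℝ (fderiv ℝ F) p) p :=
  ((h.fderiv_right (m := 1) le_rfl).differentiableAt one_ne_zero).hasFDerivAt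

theorem hd1 {F : X → Y} {p : X} (h : ContDiffAt ℝ 2 F p) : HasFDerivAt F (fderiv ℝ F p) p :=
  (h.differentiableAt two_ne_zero).hasFDerivAt

theorem evd {F : X → Y} {p : X} (h : ContDiffAt ℝ 2 F p) :
    ∀ᶠ q in 𝓝 p, HasFDerivAt F (fderiv ℝ F q) q :=
  (h.eventually (by simp)).mono fun _ hq => hd1 hq

theorem hdv {F : X → Y} {p : X} (h : ContDiffAt ℝ 2 F p) (v : X) :
    HasFDerivAt (fun q => fderiv ℝ F q v) ((fderiv ℝ (fderiv ℝ F) p).flip v) p := by
  simpa using (hd2 h).clm_apply (hasFDerivAt_const v p)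

theorem key {f G : X → ℝ} {G' : X →L[ℝ] ℝ} {p v : X} (h : ContDiffAt ℝ 2 f p)
    (e : ∀ᶠ q in 𝓝 p, fderiv ℝ f q v = G q) (hG : HasFDerivAt G G' p) : hs f p v = G' v := by
  have h1 := (hdv h v).unique (hG.congr_of_eventuallyEq e)
  rw [← h1]
  rfl

theorem hs_congr {f g : X → ℝ} {p : X} (v : X) (h : f =ᶠ[𝓝 p] g) : hs f p v = hs g p v := by
  rw [hs, hs, h.fderiv.fderiv_eq]

theorem hs_add {f g : X → ℝ} {p : X} (v : X) (hf : ContDiffAt ℝ 2 f p) (hg : ContDiffAt ℝ 2 g p) :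
    hs (fun q => f q + g q) p v = hs f p v + hs g p v :=
  key (hf.add hg) (by
    filter_upwards [evd hf, evd hg] with q h1 h2
    rw [(h1.fun_add h2).fderiv]
    rfl) ((hdv hf v).fun_add (hdv hg v))

theorem hs_sub {f g : X → ℝ} {p : X} (v : X) (hf : ContDiffAt ℝ 2 f p) (hg : ContDiffAt ℝ 2 g p) :
    hs (fun q => f q - g q) p v = hs f p v - hs g p v :=
  key (hf.sub hg) (by
    filter_upwards [evd hf, evd hg] with q h1 h2
    rw [(h1.fun_sub h2).fderiv]
    rfl) ((hdv hf v).fun_sub (hdv hg v))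

theorem hs_mul {f g : X → ℝ} {p : X} (v : X) (hf : ContDiffAt ℝ 2 f p) (hg : ContDiffAt ℝ 2 g p) :
    hs (fun q => f q * g q) p v =
      f p * hs g p v + g p * hs f p v + 2 * (fderiv ℝ f p v * fderiv ℝ g p v) := by
  rw [key (G := fun q => f q * fderiv ℝ g q v + g q * fderiv ℝ f q v) (hf.mul hg) (by
    filter_upwards [evd hf, evd hg] with q h1 h2
    rw [(h1.fun_mul h2).fderiv]
    rfl) (((hd1 hf).fun_mul (hdv hg v)).fun_add ((hd1 hg).fun_mul (hdv hf v)))]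
  simp only [hs, add_apply, smul_apply, ContinuousLinearMap.flip_apply, smul_eq_mul]
  ring

theorem hs_const (c : ℝ) (p v : X) : hs (fun _ => c) p v = 0 := by
  simp [hs]

theorem hs_cmul {f : X → ℝ} (c : ℝ) {p : X} (v : X) (hf : ContDiffAt ℝ 2 f p) :
    hs (fun q => c * f q) p v = c * hs f p v := by
  rw [hs_mul v contDiffAt_const hf, hs_const]
  simp

theorem hs_smul (f : X → ℝ) (c : ℝ) (p v : X) : hs f p (c • v) = c ^ 2 * hs f p v := by
  simp only [hs, map_smul, smul_apply, smul_eq_mul]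
  ring

theorem hs_sum {κ : Type} (s : Finset κ) {f : κ → X → ℝ} {p : X} (v : X)
    (h : ∀ i ∈ s, ContDiffAt ℝ 2 (f i) p) :
    hs (fun q => ∑ i ∈ s, f i q) p v = ∑ i ∈ s, hs (f i) p v := by
  classical
  induction s using Finset.induction_on with
  | empty => simpa using hs_const 0 p v
  | insert i s hi ih =>
    have h1 : ∀ j ∈ s, ContDiffAt ℝ 2 (f j) p := fun j hj => h j (Finset.mem_insert_of_mem hj)
    simp only [Finset.sum_insert hi]
    rw [hs_add v (h i (Finset.mem_insert_self _ _)) (ContDiffAt.sum h1), ih h1]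

theorem hs_chain {f : Y → ℝ} {γ : X → Y} {p : X} (v : X) (hγ : ContDiffAt ℝ 2 γ p)
    (hf : ContDiffAt ℝ 2 f (γ p)) : hs (fun q => f (γ q)) p v =
      hs f (γ p) (fderiv ℝ γ p v) + fderiv ℝ f (γ p) (fderiv ℝ (fderiv ℝ γ) p v v) := by
  rw [key (f := fun q => f (γ q)) (G := fun q => fderiv ℝ f (γ q) (fderiv ℝ γ q v)) (hf.comp p hγ)
    (by
      filter_upwards [evd hγ, hγ.continuousAt.eventually (evd hf)] with q h1 h2
      rw [(show HasFDerivAt (fun q => f (γ q)) _ q from h2.comp q h1).fderiv]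
      rfl) (((hd2 hf).comp p (hd1 hγ)).clm_apply (hdv hγ v)), add_comm]
  rfl

theorem hs_real {θ : ℝ → ℝ} {x : ℝ} (w : ℝ) (h : ContDiffAt ℝ 2 θ x) :
    hs θ x w = deriv (deriv θ) x * w ^ 2 := by
  have h1 : deriv (deriv θ) x = hs θ x 1 := (hdv h 1).hasDerivAt.deriv
  rw [h1, mul_comm, ← hs_smul, smul_eq_mul, mul_one]

theorem hs_comp {f : X → ℝ} {θ : ℝ → ℝ} {p : X} (v : X) (hf : ContDiffAt ℝ 2 f p)
    (hθ : ContDiffAt ℝ 2 θ (f p)) : hs (fun q => θ (f q)) p v =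
      deriv θ (f p) * hs f p v + deriv (deriv θ) (f p) * fderiv ℝ f p v ^ 2 := by
  rw [hs_chain v hf hθ, hs_real _ hθ, add_comm, fderiv_eq_smul_deriv, smul_eq_mul, mul_comm]
  rfl

theorem line_deriv (p v : X) (τ : ℝ) : HasDerivAt (fun a : ℝ => p + a • v) v τ := by
  simpa using ((hasDerivAt_id τ).smul_const v).const_add p

theorem shs : SHS where
  congr := fun _ _ _ _ _ _ v h => hs_congr v h
  add := fun _ _ _ _ _ _ v hf hg => ⟨hs_add v hf hg, hs_sub v hf hg, hs_mul v hf hg⟩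
  cmul := fun _ _ _ f c p v hf => ⟨hs_cmul c v hf, hs_smul f c p v, hs_const c p v⟩
  sum := fun _ _ _ _ s _ _ v h => hs_sum s v h
  comp := fun _ _ _ _ _ _ v hf hθ => hs_comp v hf hθ
  chain := fun _ _ _ _ _ _ _ _ _ v hγ hf => hs_chain v hγ hf
  line := fun _ _ _ _ p v τ h => by
    have h1 := HasFDerivAt.comp_hasDerivAt (f := fun a : ℝ => p + a • v) τ (hd1 h)
      (line_deriv p v τ)
    have h2 := HasFDerivAt.comp_hasDerivAt (f := fun a : ℝ => p + a • v) τ (hdv h v)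
      (line_deriv p v τ)
    exact ⟨h1, h2⟩
  polar := fun _ _ _ f p v w h => by
    have h1 := (h.isSymmSndFDerivAt (by simp)).eq v w
    refine ⟨h1, ?_⟩
    simp only [hs, map_add, add_apply, ← h1]
    ring

end Pool.Agent.MP_fcd29e_an.H68
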