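import Pool.Agent.MP_fcd29e_an.H81.Spec

/-! Liouville's theorem on the concave side. -/

set_option autoImplicit false

open Pool.Agent.MP_fcd29e_an.H81 MeasureTheory Complex Set Filter Topology Metric
open scoped ContDiff ComplexConjugate ENNReal NNReal

namespace Pool.Agent.MP_fcd29e_an.H68

/-- The estimate, with the two terms on the right added outside the integrals. -/
def EstP : Prop := ∀ (N : ℕ) (ρ φ : E N → ℝ), Dom ρ → PHI ρ φ → ∀ κ, Kap κ →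
  ∃ r₀ > 0, ∀ k a j : ℕ, ∃ C : ℝ≥0, ∀ w, Temp ρ a w → Hom (Op ρ) (-j) 0 w →
    ∫⁻ z in Op ρ, ENNReal.ofReal (κ (‖z‖ ^ 2) * ρ z ^ (2 * k) * ‖w z‖ ^ 2) ≤
      C * ((∑ l, ∫⁻ z in Op ρ, ENNReal.ofReal (κ (‖z‖ ^ 2) * ρ z ^ (2 * k) * ‖dzb l w z‖ ^ 2)) +
        ∫⁻ z in {z | r₀ ≤ ρ z}, ENNReal.ofReal (κ (‖z‖ ^ 2) * ‖w z‖ ^ 2))

variable {N : ℕ}

theorem hol_mul {U : Set (E N)} (hU : IsOpen U) {f g : E N → ℂ} (hf : Hol U f) (hg : Hol U g) :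
    Hol U fun z => f z * g z := by
  refine ⟨hf.1.mul hg.1, fun j z hz => ?_⟩
  rw [dzb_mul j (ContDiffAt.da (hf.1.contDiffAt (hU.mem_nhds hz)))
    (ContDiffAt.da (hg.1.contDiffAt (hU.mem_nhds hz))), hf.2 j z hz, hg.2 j z hz]
  simp

theorem hol_pow {U : Set (E N)} (hU : IsOpen U) {f : E N → ℂ} (hf : Hol U f) (M : ℕ) :
    Hol U fun z => f z ^ M := by
  induction M with
  | zero => exact ⟨by simpa using contDiffOn_const, fun j z _ => by simp⟩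
  | succ M ih => simpa only [pow_succ] using hol_mul hU ih hf

theorem hol_coord (U : Set (E N)) (i : Fin N) : Hol U fun z => z i :=
  ⟨(contDiff_coord i).contDiffOn, fun j z _ => dzb_coord j i z⟩

/-- Invariance under dilations. -/
def Iv (U : Set (E N)) (v : E N → ℂ) : Prop := ∀ c : ℂ, c ≠ 0 → ∀ z ∈ U, v (c • z) = v z

theorem Iv.hom {U : Set (E N)} {v : E N → ℂ} (h : Iv U v) : Hom U (-((0 : ℕ) : ℤ)) 0 v :=
  fun c hc z hz => by simp [h c hc z hz]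

theorem le_of_pow {a S C : ℝ} (hS : 0 ≤ S) (h : ∀ M : ℕ, (a ^ M) ^ 2 ≤ C * (S ^ M) ^ 2) : a ≤ S := by
  by_contra hlt
  rw [not_le] at hlt
  have ha : 0 < a := hS.trans_lt hlt
  have hC : 0 < C := by have := h 0; simp at this; linarith
  have hq : (S / a) ^ 2 < 1 := pow_lt_one₀ (by positivity) ((div_lt_one ha).2 hlt) two_ne_zero
  obtain ⟨M, hM⟩ := exists_pow_lt_of_lt_one (inv_pos.2 hC) hq
  have h1 := h M
  have h2 : 0 < (a ^ M) ^ 2 := by positivity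
  have h3 : ((S / a) ^ 2) ^ M = (S ^ M) ^ 2 / (a ^ M) ^ 2 := by
    rw [← pow_mul, div_pow, ← pow_mul, ← pow_mul, mul_comm]
  rw [h3, div_lt_iff₀ h2, inv_mul_eq_div, lt_div_iff₀ hC] at hM
  linarith

section
variable {ρ : E N → ℝ} {κ : ℝ → ℝ}

/-- The weighted norm. -/
noncomputable def An (ρ : E N → ℝ) (κ : ℝ → ℝ) (v : E N → ℂ) : ℝ≥0∞ :=
  ∫⁻ z in Op ρ, ENNReal.ofReal (κ (‖z‖ ^ 2) * ρ z ^ (2 * 0) * ‖v z‖ ^ 2)

theorem shell (L : Lv0) (hρ : Dom ρ) (hκ : Kap κ) {K : Set (E N)} (hK : IsCompact K)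
    (h0 : (0 : E N) ∉ K) : ∃ C : ℝ≥0, ∀ v, Iv (Op ρ) v →
      ∫⁻ z in Op ρ ∩ K, ENNReal.ofReal (‖v z‖ ^ 2) ≤ C * An ρ κ v := by
  have hO : MeasurableSet (Op ρ) := (L.c1 N ρ hρ).2.1.measurableSet
  obtain ⟨C, hC⟩ := ((L.t3.2 N).1 κ hκ).2.2.2.2.1 0 K hK h0
  refine ⟨C, fun v hv => ?_⟩
  have h1 := hC ((Op ρ).indicator fun z => ENNReal.ofReal (‖v z‖ ^ 2)) fun r hr =>
    Eventually.of_forall fun z => by
      have hc : (r : ℂ) ≠ 0 := by exact_mod_cast hr.ne'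
      rw [← Complex.coe_smul, zpow_zero, ENNReal.ofReal_one, one_mul]
      by_cases hz : z ∈ Op ρ
      · have hz' : (r : ℂ) • z ∈ Op ρ := ⟨smul_ne_zero hc hz.1, by rw [hρ.inv _ hc]; exact hz.2⟩
        rw [indicator_of_mem hz, indicator_of_mem hz', hv _ hc z hz]
      · have hz' : (r : ℂ) • z ∉ Op ρ := fun h =>
          hz ⟨fun e => h.1 (by rw [e, smul_zero]), by have := h.2; rwa [hρ.inv _ hc] at this⟩
        rw [indicator_of_notMem hz, indicator_of_notMem hz']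
  rw [setLIntegral_indicator hO] at h1
  refine h1.trans (le_of_eq ?_)
  congr 1
  rw [An, ← lintegral_indicator hO]
  refine lintegral_congr fun z => ?_
  by_cases hz : z ∈ Op ρ
  · rw [indicator_of_mem hz, indicator_of_mem hz, mul_zero, pow_zero, mul_one,
      ENNReal.ofReal_mul (hκ.nonneg _)]
  · rw [indicator_of_notMem hz, indicator_of_notMem hz, mul_zero]

theorem l2_of_an (L : Lv0) (hρ : Dom ρ) (hκ : Kap κ) {v : E N → ℂ} (hc : ContinuousOn v (Op ρ))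
    (hv : Iv (Op ρ) v) (h : An ρ κ v ≠ ⊤) : L2 (Op ρ) fun z => (ρ z : ℂ) ^ 0 * v z := by
  intro K hK h0
  have hO : MeasurableSet (Op ρ ∩ K) :=
    (L.c1 N ρ hρ).2.1.measurableSet.inter hK.measurableSet
  obtain ⟨C, hC⟩ := shell L hρ hκ hK h0
  have hm : AEStronglyMeasurable v (volume.restrict (Op ρ ∩ K)) :=
    (hc.mono inter_subset_left).aestronglyMeasurable hO
  simp only [pow_zero, one_mul]
  rw [memLp_two_iff_integrable_sq_norm hm,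
    ← lintegral_ofReal_ne_top_iff_integrable (f := fun x => ‖v x‖ ^ 2) (hm.norm.pow 2)
      (Eventually.of_forall fun z => by positivity)]
  exact ne_top_of_le_ne_top (ENNReal.mul_ne_top ENNReal.coe_ne_top h) (hC v hv)

theorem l2_pow (L : Lv0) (hρ : Dom ρ) {a : ℕ} {v : E N → ℂ} (hv : Temp ρ a v) (M : ℕ) :
    L2 (Op ρ) fun z => (ρ z : ℂ) ^ (a * M) * v z ^ M := by
  intro K hK h0
  have hO : MeasurableSet (Op ρ ∩ K) :=
    (L.c1 N ρ hρ).2.1.measurableSet.inter hK.measurableSet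
  have : IsFiniteMeasure (volume.restrict (Op ρ ∩ K)) := isFiniteMeasure_restrict.2
    (ne_top_of_le_ne_top hK.measure_lt_top.ne (measure_mono inter_subset_right))
  obtain ⟨C, hC⟩ := hv.2 K hK h0
  have hr : ContinuousOn (fun z => (ρ z : ℂ)) (Op ρ ∩ K) :=
    continuous_ofReal.comp_continuousOn (hρ.smooth.continuousOn.mono fun z hz => hz.1.1)
  refine MemLp.of_bound (((hr.pow _).mul
    ((hv.1.continuousOn.mono inter_subset_left).pow _)).aestronglyMeasurable hO) (C ^ M) ?_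
  refine (ae_restrict_iff' hO).2 (Eventually.of_forall fun z hz => ?_)
  have h1 := hC z hz 0 (by norm_num)
  have hp : 0 < ρ z := hz.1.2
  rw [norm_iteratedFDeriv_zero, le_div_iff₀ (pow_pos hp a)] at h1
  rw [pow_mul, ← mul_pow, norm_pow, norm_mul, norm_pow, Complex.norm_real, Real.norm_eq_abs,
    abs_of_pos hp]
  exact pow_le_pow_left₀ (by positivity) (by linarith) M

theorem tail (L : Lv0) (hρ : Dom ρ) (hκ : Kap κ) (r₀ : ℝ) : ∃ D : ℝ≥0, ∀ (v : E N → ℂ) (S : ℝ),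
    (∀ z ∈ Sh N, r₀ ≤ ρ z → ‖v z‖ ≤ S) →
      ∫⁻ z in {z | r₀ ≤ ρ z}, ENNReal.ofReal (κ (‖z‖ ^ 2) * ‖v z‖ ^ 2) ≤
        D * ENNReal.ofReal (S ^ 2) := by
  have hS : IsCompact (Sh N) := ((L.t3.2 N).1 κ hκ).2.2.1
  have hs : ∀ z : E N, κ (‖z‖ ^ 2) ≠ 0 → z ∈ Sh N := fun z hz =>
    ⟨(hκ.supp _ hz).1.le, (hκ.supp _ hz).2.le⟩
  have hi : Integrable fun z : E N => κ (‖z‖ ^ 2) :=
    (hκ.smooth.continuous.comp (continuous_norm.pow 2)).integrable_of_hasCompactSupport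
      (HasCompactSupport.intro hS fun z hz => by by_contra h; exact hz (hs z h))
  refine ⟨(∫⁻ z : E N, ENNReal.ofReal (κ (‖z‖ ^ 2))).toNNReal, fun v S hv => ?_⟩
  rw [ENNReal.coe_toNNReal hi.lintegral_lt_top.ne,
    ← lintegral_mul_const' _ _ ENNReal.ofReal_ne_top]
  refine le_trans (setLIntegral_mono'
    (measurableSet_le measurable_const (L.c1 N ρ hρ).2.2.2.2.1) fun z hz => ?_)
    (setLIntegral_le_lintegral _ _)
  rw [← ENNReal.ofReal_mul (hκ.nonneg _)]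
  refine ENNReal.ofReal_le_ofReal ?_
  by_cases h : κ (‖z‖ ^ 2) = 0
  · simp [h]
  · exact mul_le_mul_of_nonneg_left
      (pow_le_pow_left₀ (norm_nonneg _) (hv z (hs z h) hz) 2) (hκ.nonneg _)

end

/-- The estimate for holomorphic functions, with a uniform constant. -/
theorem key (L : Lv0) (he : EstP) (hw : StmtW2) (hN : 1 ≤ N) {ρ φ : E N → ℝ} (hρ : Dom ρ)
    (hφ : PHI ρ φ) {κ : ℝ → ℝ} (hκ : Kap κ) : ∃ r₀ > 0, ∃ C : ℝ≥0, ∀ (k : ℕ) (v : E N → ℂ) (S : ℝ),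
      Hol (Op ρ) v → Iv (Op ρ) v → L2 (Op ρ) (fun z => (ρ z : ℂ) ^ k * v z) →
      (∀ z ∈ Sh N, r₀ ≤ ρ z → ‖v z‖ ≤ S) → An ρ κ v ≤ C * ENNReal.ofReal (S ^ 2) := by
  have hO : MeasurableSet (Op ρ) := (L.c1 N ρ hρ).2.1.measurableSet
  obtain ⟨r₀, hr, hE⟩ := he N ρ φ hρ hφ κ hκ
  obtain ⟨D, hD⟩ := tail L hρ hκ r₀
  have step : ∀ a : ℕ, ∃ C : ℝ≥0, ∀ (v : E N → ℂ) (S : ℝ), Hol (Op ρ) v → Iv (Op ρ) v →
      Temp ρ a v → (∀ z ∈ Sh N, r₀ ≤ ρ z → ‖v z‖ ≤ S) →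
        An ρ κ v ≤ C * ENNReal.ofReal (S ^ 2) := by
    intro a
    obtain ⟨C, hC⟩ := hE 0 a 0
    refine ⟨C * D, fun v S h1 h2 h3 h4 => (hC v h3 h2.hom).trans ?_⟩
    have hz : ∑ l, ∫⁻ z in Op ρ,
        ENNReal.ofReal (κ (‖z‖ ^ 2) * ρ z ^ (2 * 0) * ‖dzb l v z‖ ^ 2) = 0 :=
      Finset.sum_eq_zero fun l _ => by
        rw [setLIntegral_congr_fun hO (g := fun _ => 0) fun z hz => by simp [h1.2 l z hz],
          lintegral_zero]
    rw [hz, zero_add, ENNReal.coe_mul, mul_assoc]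
    exact mul_le_mul_right (hD v S h4) _
  obtain ⟨C, hC⟩ := step (0 + N + 2)
  refine ⟨r₀, hr, C, fun k v S h1 h2 h3 h4 => hC v S h1 h2 ?_ h4⟩
  obtain ⟨C', hC'⟩ := step (k + N + 2)
  have hT := ((hw N hN).2.2 ρ hρ).1
  exact hT 0 v h1 (l2_of_an L hρ hκ h1.1.continuousOn h2 (ne_top_of_le_ne_top
    (ENNReal.mul_ne_top ENNReal.coe_ne_top ENNReal.ofReal_ne_top) (hC' v S h1 h2 (hT k v h1 h3) h4)))

/-- The maximum principle on the concave side. -/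
theorem bound (L : Lv0) (he : EstP) (hw : StmtW2) (hN : 1 ≤ N) {ρ φ : E N → ℝ} (hρ : Dom ρ)
    (hφ : PHI ρ φ) : ∃ r₀ > 0, ∀ (k : ℕ) (v : E N → ℂ) (S : ℝ), 0 ≤ S →
      Hol (Op ρ) v → Iv (Op ρ) v → L2 (Op ρ) (fun z => (ρ z : ℂ) ^ k * v z) →
      (∀ z ∈ Sh N, r₀ ≤ ρ z → ‖v z‖ ≤ S) → ∀ x ∈ Op ρ, ‖v x‖ ≤ S := by
  obtain ⟨κ, hκ⟩ := L.t3.1
  have hO : IsOpen (Op ρ) := (L.c1 N ρ hρ).2.1
  obtain ⟨r₀, hr, C, hC⟩ := key L he hw hN hρ hφ hκ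
  refine ⟨r₀, hr, fun k v S hS h1 h2 h3 h4 x hx => ?_⟩
  obtain ⟨ε, hε, hb⟩ := nhds_basis_closedBall.mem_iff.1 (hO.mem_nhds hx)
  obtain ⟨r, hr0, rfl⟩ : ∃ r : ℝ, 0 < r ∧ ε = 3 * r := ⟨ε / 3, by positivity, by ring⟩
  obtain ⟨C₁, hC₁⟩ := (hw N hN).2.1
  obtain ⟨C₂, hC₂⟩ := shell L hρ hκ (isCompact_closedBall x (3 * r)) fun h => (hb h).1 rfl
  have hT := ((hw N hN).2.2 ρ hρ).1 k v h1 h3
  refine le_of_pow (C := (C₁ * C₂ * C : ℝ≥0) / r ^ (2 * 0 + 2 * N)) hS fun M => ?_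
  have g1 := hol_pow hO h1 M
  have g2 : Iv (Op ρ) fun z => v z ^ M := fun c hc z hz => by simp only [h2 c hc z hz]
  have g3 := hC _ _ (S ^ M) g1 g2 (l2_pow L hρ hT M) fun z hz hz' => by
    rw [norm_pow]; exact pow_le_pow_left₀ (norm_nonneg _) (h4 z hz hz') M
  have g4 := hC₁ (Op ρ) _ x r hO g1 hr0 hb 0 (by norm_num)
  have g5 : ∫⁻ y in ball x (3 * r), ENNReal.ofReal (‖v y ^ M‖ ^ 2) ≤
      ∫⁻ y in Op ρ ∩ closedBall x (3 * r), ENNReal.ofReal (‖v y ^ M‖ ^ 2) :=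
    lintegral_mono_set fun y hy => ⟨hb (ball_subset_closedBall hy), ball_subset_closedBall hy⟩
  have g6 := g4.trans (mul_le_mul_right (g5.trans ((hC₂ _ g2).trans (mul_le_mul_right g3 _))) _)
  rw [norm_iteratedFDeriv_zero, norm_pow, ← mul_assoc, ← mul_assoc, ← ENNReal.coe_mul,
    ← ENNReal.coe_mul, ← ENNReal.ofReal_coe_nnreal, ← ENNReal.ofReal_mul (NNReal.coe_nonneg _),
    ENNReal.ofReal_le_ofReal_iff (by positivity)] at g6
  rw [div_mul_eq_mul_div, le_div_iff₀ (by positivity)]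
  exact g6

theorem lio0 (L : Lv0) (he : EstP) (hw : StmtW2) (hc : StmtCON) (hN : 3 ≤ N) {ρ φ : E N → ℝ}
    (hρ : Dom ρ) (hφ : PHI ρ φ) {k : ℕ} {v : E N → ℂ} (h1 : Hol (Op ρ) v) (h2 : Iv (Op ρ) v)
    (h3 : L2 (Op ρ) fun z => (ρ z : ℂ) ^ k * v z) : ∃ c : ℂ, ∀ z ∈ Op ρ, v z = c := by
  have hN1 : 1 ≤ N := by omega
  obtain ⟨κ, hκ⟩ := L.t3.1
  have hO : IsOpen (Op ρ) := (L.c1 N ρ hρ).2.1
  obtain ⟨-, -, hS, hS0, -⟩ := (L.t3.2 N).1 κ hκ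
  obtain ⟨r₀, hr, hB⟩ := bound L he hw hN1 hρ hφ
  have hne : ∀ z ∈ Sh N, z ≠ 0 := fun z hz e => hS0 (e ▸ hz)
  have hT : IsCompact (Sh N ∩ ρ ⁻¹' Ici r₀) :=
    hS.of_isClosed_subset ((hρ.smooth.continuousOn.mono fun z hz => hne z hz).preimage_isClosed_of_isClosed
      hS.isClosed isClosed_Ici) inter_subset_left
  have hTO : Sh N ∩ ρ ⁻¹' Ici r₀ ⊆ Op ρ := fun z hz => ⟨hne z hz.1, hr.trans_le hz.2⟩
  rcases (Sh N ∩ ρ ⁻¹' Ici r₀).eq_empty_or_nonempty with h | h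
  · exact ⟨0, fun z hz => norm_le_zero_iff.1 (hB k v 0 le_rfl h1 h2 h3
      (fun y hy hy' => (notMem_empty y (h ▸ (⟨hy, hy'⟩ : y ∈ Sh N ∩ ρ ⁻¹' Ici r₀))).elim) z hz)⟩
  · obtain ⟨p, hp, hm⟩ := hT.exists_isMaxOn h (h1.1.continuousOn.mono hTO).norm
    exact ⟨v p, Complex.eqOn_of_isPreconnected_of_isMaxOn_norm (hc N hN ρ hρ) hO
      ((hw N hN1).1 _ v hO h1) (hTO hp) fun z hz =>
        hB k v _ (norm_nonneg _) h1 h2 h3 (fun y hy hy' => hm ⟨hy, hy'⟩) z hz⟩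

theorem lio (L : Lv0) (he : EstP) (hw : StmtW2) (hc : StmtCON) : StmtLIO := by
  intro N hN ρ φ hρ hφ j k w h1 h2 h3
  have hO : IsOpen (Op ρ) := (L.c1 N ρ hρ).2.1
  rcases eq_or_ne j 0 with rfl | hj
  · obtain ⟨c, h⟩ := lio0 L he hw hc hN hρ hφ h1 (fun c hc z hz => by simpa using h2 c hc z hz) h3
    exact ⟨c, h, fun e => (e rfl).elim⟩
  refine ⟨0, fun z hz => ?_, fun _ => rfl⟩
  have h0 : (0 : E N) ∉ Op ρ := fun h => h.1 rfl
  have hi : ∀ i : Fin N, ∃ c : ℂ, ∀ y ∈ Op ρ, y i ^ j * w y = c := fun i => by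
    refine lio0 L he hw hc hN hρ hφ (k := k) (hol_mul hO (hol_pow hO (hol_coord _ i) j) h1)
      (fun c hc y hy => ?_) ?_
    · simp only [h2 c hc y hy, PiLp.smul_apply, smul_eq_mul, mul_pow, zpow_neg, zpow_natCast,
        zpow_zero]
      field_simp
    · have := ((L.t1 N _ hO h0).1 _ h3).2.2.2.2.1 (fun y => y i ^ j)
        ((contDiff_coord (n := 0) i).continuous.pow j).continuousOn
      simpa only [mul_left_comm] using this
  choose c hcc using hi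
  have hz0 : ∀ i, c i = 0 := fun i => by
    have : Nontrivial (Fin N) := Fin.nontrivial_iff_two_le.2 (by omega)
    obtain ⟨l, hl⟩ := exists_ne i
    have hcont : Continuous fun t : ℂ => z + t • ee l := by fun_prop
    have hev : ∀ᶠ t in 𝓝 (0 : ℂ), z + t • ee l ∈ Op ρ :=
      hcont.continuousAt.eventually (hO.mem_nhds (by simpa using hz))
    have hf : (fun t : ℂ => c i * (z l + t) ^ j) = fun _ => c l * z i ^ j := by
      refine AnalyticOnNhd.eq_of_eventuallyEq (𝕜 := ℂ) (z₀ := 0) (fun t _ => by fun_prop)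
        (fun t _ => analyticAt_const) (hev.mono fun t ht => ?_)
      have a1 := hcc i _ ht
      have a2 := hcc l _ ht
      have b1 : (z + t • ee l) i = z i := by simp [ee, hl.symm]
      have b2 : (z + t • ee l) l = z l + t := by simp [ee]
      rw [b1] at a1
      rw [b2] at a2
      show c i * (z l + t) ^ j = c l * z i ^ j
      rw [← a1, ← a2]; ring
    have e1 := congrFun hf (-z l)
    have e2 := congrFun hf (1 - z l)
    simp only [add_neg_cancel, zero_pow hj, mul_zero] at e1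
    simpa [← e1] using e2
  obtain ⟨i, hi⟩ : ∃ i, z i ≠ 0 := by
    by_contra h
    push Not at h
    exact hz.1 (by ext i; simp [h i])
  have := hcc i z hz
  rw [hz0 i] at this
  exact (mul_eq_zero.1 this).resolve_left (pow_ne_zero j hi)

end Pool.Agent.MP_fcd29e_an.H68
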